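import Mathlib
import Pool.Agent.H97.MeasIso
import Pool.Agent.H97.TorusGap

open MeasureTheory Set Filter Topology InnerProductSpace ContinuousLinearMap
open scoped ENNReal NNReal

namespace Pool.Agent.Results.MP_fe632d_an.QTwo

/-- Bounded operators on complex `L₂(μ)`. -/
abbrev Op {X : Type} [MeasurableSpace X] (μ : Measure X) : Type := Lp ℂ 2 μ →L[ℂ] Lp ℂ 2 μ

/-- Measure of the support of a vector. -/
noncomputable def suppMeas {X : Type} [MeasurableSpace X] (μ : Measure X) (ξ : Lp ℂ 2 μ) : ℝ≥0∞ :=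
  μ {x | ξ x ≠ 0}

/-- `a` enlarges supports by a factor at most `l`. -/
def Expands {X : Type} [MeasurableSpace X] (μ : Measure X) (a : Op μ) (l : ℝ≥0) : Prop :=
  ∀ ξ : Lp ℂ 2 μ, suppMeas μ (a ξ) ≤ l * suppMeas μ ξ

/-- `a` has support expansion at most `l` (`star a` is the adjoint). -/
def SuppExp {X : Type} [MeasurableSpace X] (μ : Measure X) (a : Op μ) (l : ℝ≥0) : Prop :=
  Expands μ a l ∧ Expands μ (star a) l

/-- The norm closure of the operators of finite support expansion. -/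
def Roe {X : Type} [MeasurableSpace X] (μ : Measure X) : Set (Op μ) :=
  closure {a | ∃ l : ℝ≥0, SuppExp μ a l}

/-- The algebra contains a nonzero compact operator. -/
def Q1 {X : Type} [MeasurableSpace X] (μ : Measure X) : Prop :=
  ∃ a ∈ Roe μ, IsCompactOperator a ∧ a ≠ 0

/-- The algebra contains every compact operator. -/
def Q2 {X : Type} [MeasurableSpace X] (μ : Measure X) : Prop :=
  ∀ a : Op μ, IsCompactOperator a → a ∈ Roe μ

open Pool.Agent.H97 TorusGap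

section
variable {X Y Z : Type} [MeasurableSpace X] [MeasurableSpace Y] [MeasurableSpace Z]
  {μ : Measure X} {ν : Measure Y} {ρ : Measure Z}

def Ex (a : Lp ℂ 2 μ →L[ℂ] Lp ℂ 2 ν) : Prop :=
  ∃ l : ℝ≥0∞, l ≠ ∞ ∧ ∀ ξ, ν {y | a ξ y ≠ 0} ≤ l * μ {x | ξ x ≠ 0}

lemma meas_supp (ξ : Lp ℂ 2 μ) : MeasurableSet {x | ξ x ≠ 0} :=
  (Lp.stronglyMeasurable ξ).measurable (measurableSet_singleton 0).compl

lemma Ex.comp {a : Lp ℂ 2 μ →L[ℂ] Lp ℂ 2 ν} {b : Lp ℂ 2 ν →L[ℂ] Lp ℂ 2 ρ} (hb : Ex b) (ha : Ex a) :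
    Ex (b ∘L a) := by
  obtain ⟨l, hl, h⟩ := ha
  obtain ⟨m, hm, h'⟩ := hb
  refine ⟨m * l, ENNReal.mul_ne_top hm hl, fun ξ => (h' (a ξ)).trans ?_⟩
  rw [mul_assoc]; gcongr; exact h ξ

lemma Ex.add {a b : Lp ℂ 2 μ →L[ℂ] Lp ℂ 2 ν} (ha : Ex a) (hb : Ex b) : Ex (a + b) := by
  obtain ⟨l, hl, h⟩ := ha
  obtain ⟨m, hm, h'⟩ := hb
  refine ⟨l + m, ENNReal.add_ne_top.mpr ⟨hl, hm⟩, fun ξ => ?_⟩
  rw [add_mul]
  refine le_trans ?_ ((measure_union_le _ _).trans (add_le_add (h ξ) (h' ξ)))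
  refine measure_mono_ae ?_
  filter_upwards [Lp.coeFn_add (a ξ) (b ξ)] with y hy (h1 : (a ξ + b ξ) y ≠ 0)
  by_contra h2
  have h3 : a ξ y = 0 ∧ b ξ y = 0 := by simpa using (show ¬(a ξ y ≠ 0 ∨ b ξ y ≠ 0) from h2)
  exact h1 (by rw [hy, Pi.add_apply, h3.1, h3.2, add_zero])

lemma Ex.smul {a : Lp ℂ 2 μ →L[ℂ] Lp ℂ 2 ν} (ha : Ex a) (c : ℂ) : Ex (c • a) := by
  obtain ⟨l, hl, h⟩ := ha
  refine ⟨l, hl, fun ξ => le_trans (measure_mono_ae ?_) (h ξ)⟩
  filter_upwards [Lp.coeFn_smul c (a ξ)] with y hy (h1 : (c • a ξ) y ≠ 0) h2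
  exact h1 (by rw [hy, Pi.smul_apply, h2, smul_zero])

lemma Ex.id : Ex (1 : Lp ℂ 2 μ →L[ℂ] Lp ℂ 2 μ) := ⟨1, ENNReal.one_ne_top, fun ξ => by simp⟩

lemma Ex.of_comp {a : Lp ℂ 2 μ →L[ℂ] Lp ℂ 2 μ} {f : X → X} (hf : MeasurePreserving f μ μ)
    (h : ∀ η, a η =ᵐ[μ] η ∘ f) : Ex a := by
  refine ⟨1, ENNReal.one_ne_top, fun ξ => ?_⟩
  rw [one_mul, ← hf.measure_preimage (meas_supp ξ).nullMeasurableSet]
  refine measure_mono_ae ?_
  filter_upwards [h ξ] with y hy (h1 : a ξ y ≠ 0)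
  rwa [hy] at h1

variable (μ) in
def G : Submodule ℂ (Lp ℂ 2 μ →L[ℂ] Lp ℂ 2 μ) where
  carrier := {a | Ex a ∧ Ex (adjoint a)}
  add_mem' ha hb := ⟨ha.1.add hb.1, by rw [map_add]; exact ha.2.add hb.2⟩
  zero_mem' := ⟨by simpa using (Ex.id (μ := μ)).smul 0, by simpa using (Ex.id (μ := μ)).smul 0⟩
  smul_mem' c a ha := ⟨ha.1.smul c, by rw [map_smulₛₗ]; exact ha.2.smul _⟩

lemma roe_eq : Roe μ = (G μ).topologicalClosure := by
  rw [Roe, Submodule.topologicalClosure_coe]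
  congr 1
  ext a
  constructor
  · rintro ⟨l, h⟩
    exact ⟨⟨l, ENNReal.coe_ne_top, h.1⟩, ⟨l, ENNReal.coe_ne_top, h.2⟩⟩
  · rintro ⟨⟨l, hl, h⟩, ⟨m, hm, h'⟩⟩
    lift l to ℝ≥0 using hl
    lift m to ℝ≥0 using hm
    refine ⟨l + m, fun ξ => (h ξ).trans ?_, fun ξ => (h' ξ).trans ?_⟩ <;> unfold suppMeas <;>
      gcongr <;> simp

lemma G_pow {a : Lp ℂ 2 μ →L[ℂ] Lp ℂ 2 μ} (ha : a ∈ G μ) (k : ℕ) : a ^ k ∈ G μ := by
  induction k with
  | zero => exact ⟨by simpa using Ex.id, by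
      rw [pow_zero, show adjoint (1 : Lp ℂ 2 μ →L[ℂ] Lp ℂ 2 μ) = 1 from adjoint_id]; exact Ex.id⟩
  | succ k ih =>
    rw [pow_succ, mul_def]
    exact ⟨ih.1.comp ha.1, by rw [adjoint_comp]; exact ha.2.comp ih.2⟩

lemma inst_cond {S : Set X} (h0 : μ S ≠ 0) (h1 : μ S ≠ ∞) :
    IsProbabilityMeasure ((μ S)⁻¹ • μ.restrict S) :=
  ⟨by simp [ENNReal.inv_mul_cancel h0 h1]⟩

lemma inst_null [StandardBorelSpace X] {S : Set X} (hn : ∀ x ∈ S, μ {x} = 0) (c : ℝ≥0∞) :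
    NullSingletonClass (c • μ.restrict S) := ⟨fun x => by
  rw [Measure.smul_apply, Measure.restrict_apply (measurableSet_singleton x)]
  by_cases hx : x ∈ S
  · rw [measure_mono_null inter_subset_left (hn x hx), smul_zero]
  · rw [singleton_inter_eq_empty.mpr hx, measure_empty, smul_zero]⟩

lemma exists_W' [StandardBorelSpace X] (hn : ∀ x, μ {x} = 0) {S : Set X} (hS : MeasurableSet S)
    (h0 : μ S ≠ 0) (h1 : μ S ≠ ∞) (e : Lp ℂ 2 mT) (he : e =ᵐ[mT] fun _ => 1) :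
    ∃ (W : Lp ℂ 2 μ →L[ℂ] Lp ℂ 2 mT) (c : ℂ), Ex W ∧ Ex (adjoint W) ∧
      indicatorConstLp 2 hS h1 (1 : ℂ) = c • adjoint W e := by
  have := inst_cond h0 h1
  have := inst_null (μ := μ) (S := S) (fun x _ => hn x) (μ S)⁻¹
  have : IsProbabilityMeasure mT := inferInstance
  have : NullSingletonClass (AddCircle.haarAddCircle (T := 1)) := ⟨fun x => by
    have := AddCircle.volume_closedBall (1 : ℝ) (x := x) 0
    rw [Metric.closedBall_zero, AddCircle.volume_eq_smul_haarAddCircle] at this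
    simpa using this⟩
  have : NullSingletonClass mT := Measure.pi_nullSingletonClass (0 : Fin 2)
  obtain ⟨φ, ψ, hφ, hψ, h⟩ := MeasIso.iso ((μ S)⁻¹ • μ.restrict S) mT
  have hc0 : (μ S)⁻¹ ≠ 0 := ENNReal.inv_ne_zero.mpr h1
  have hc : (μ S)⁻¹ ≠ ∞ := ENNReal.inv_ne_top.mpr h0
  obtain ⟨W, hW, hW'⟩ := exists_W μ mT hS hc0 hc hφ hψ h
  refine ⟨W, ((μ S).toReal : ℂ), ⟨_, hc, fun ξ => ?_⟩, ⟨_, h1, fun ξ => ?_⟩, ?_⟩
  · calc mT {y | W ξ y ≠ 0} ≤ mT (ψ ⁻¹' {x | ξ x ≠ 0}) := by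
          refine measure_mono_ae ?_
          filter_upwards [hW ξ] with y hy (h1 : W ξ y ≠ 0)
          rwa [hy] at h1
      _ = _ := hψ.measure_preimage (meas_supp ξ).nullMeasurableSet
      _ ≤ _ := by
          rw [Measure.smul_apply, smul_eq_mul]; gcongr; exact Measure.restrict_le_self
  · rw [← hφ.measure_preimage (meas_supp ξ).nullMeasurableSet, Measure.smul_apply, smul_eq_mul,
      ← mul_assoc, ENNReal.mul_inv_cancel h0 h1, one_mul, Measure.restrict_apply' hS]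
    refine measure_mono_ae ?_
    filter_upwards [hW' ξ] with x hx (h1 : adjoint W ξ x ≠ 0)
    rw [hx] at h1
    by_cases hxS : x ∈ S
    · rw [indicator_of_mem hxS] at h1
      exact ⟨right_ne_zero_of_mul h1, hxS⟩
    · exact absurd (indicator_of_notMem hxS _) h1
  · have h2 : ∀ᵐ x ∂μ, x ∈ S → e (φ x) = 1 := by
      rw [← ae_restrict_iff' hS]
      exact (Measure.ae_ennreal_smul_measure_iff hc0).mp (hφ.quasiMeasurePreserving.ae he)
    ext1
    filter_upwards [indicatorConstLp_coeFn (p := 2) (hs := hS) (hμs := h1) (c := (1 : ℂ)),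
      Lp.coeFn_smul ((μ S).toReal : ℂ) (adjoint W e), hW' e, h2] with x a1 a2 a3 a4
    rw [a1, a2, Pi.smul_apply, a3]
    by_cases hxS : x ∈ S
    · have : ((μ S).toReal : ℂ) ≠ 0 := by
        exact_mod_cast ENNReal.toReal_ne_zero.mpr ⟨h0, h1⟩
      simp [indicator_of_mem hxS, a4 hxS, this]
    · simp [indicator_of_notMem hxS]

lemma ind_mem [StandardBorelSpace X] (hn : ∀ x, μ {x} = 0) {S T : Set X} (hS : MeasurableSet S)
    (h1 : μ S ≠ ∞) (hT : MeasurableSet T) (h2 : μ T ≠ ∞) :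
    rankOne ℂ (indicatorConstLp 2 hS h1 (1 : ℂ)) (indicatorConstLp 2 hT h2 (1 : ℂ)) ∈
      (G μ).topologicalClosure := by
  have hz : ∀ {S : Set X} (hS : MeasurableSet S) (h1 : μ S ≠ ∞), μ S = 0 →
      indicatorConstLp 2 hS h1 (1 : ℂ) = 0 := fun hS h1 h => by
    rw [← norm_eq_zero, norm_indicatorConstLp (by norm_num) (by norm_num)]
    simp [Measure.real, h]
  by_cases hS0 : μ S = 0
  · rw [hz hS h1 hS0]; simp
  by_cases hT0 : μ T = 0
  · rw [hz hT h2 hT0]; simp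
  obtain ⟨U, e, hU, hU', he, ht⟩ := exists_markov
  obtain ⟨V, c, hV, hV', hc⟩ := exists_W' hn hS hS0 h1 e he
  obtain ⟨W, d, hW, hW', hd⟩ := exists_W' hn hT hT0 h2 e he
  have hM : ((1 / 4 : ℂ) • ∑ i, U i) ∈ G mT :=
    Submodule.smul_mem _ _ (Submodule.sum_mem _ fun i _ =>
      ⟨Ex.of_comp (A_mp _) (hU i), Ex.of_comp (A_mp _) (hU' i)⟩)
  have hcont : Continuous fun a : Lp ℂ 2 mT →L[ℂ] Lp ℂ 2 mT => adjoint V ∘L (a ∘L W) :=
    continuous_const.clm_comp (continuous_id.clm_comp continuous_const)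
  have hm : adjoint V ∘L (rankOne ℂ e e ∘L W) ∈ (G μ).topologicalClosure := by
    refine mem_closure_of_tendsto ((hcont.tendsto _).comp ht) (Eventually.of_forall fun k => ?_)
    have := G_pow hM (k + 1)
    refine ⟨hV'.comp (this.1.comp hW), ?_⟩
    simp only [Function.comp, adjoint_comp, adjoint_adjoint]
    exact (hW'.comp this.2).comp hV
  rw [rankOne_comp, comp_rankOne] at hm
  rw [hc, hd, map_smulₛₗ, map_smul (rankOne ℂ), _root_.smul_apply]
  exact Submodule.smul_mem _ _ (Submodule.smul_mem _ _ hm)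

end

section
variable {H : Type} [NormedAddCommGroup H] [InnerProductSpace ℂ H] [CompleteSpace H]

lemma top_of (V : Submodule ℂ H) (hV : IsClosed (V : Set H)) {D : Set H} (hD : D ⊆ V)
    (h : ∀ f, (∀ u ∈ D, ⟪u, f⟫_ℂ = 0) → f = 0) (u : H) : u ∈ V := by
  have : CompleteSpace V := hV.completeSpace_coe
  have : V = ⊤ := by
    rw [← Submodule.orthogonal_eq_bot_iff, eq_bot_iff]
    exact fun f hf => h f fun u hu => hf u (hD hu)
  rw [this]; trivial

lemma all_compact (K : Submodule ℂ (H →L[ℂ] H)) (hK : IsClosed (K : Set (H →L[ℂ] H))) {D : Set H}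
    (h : ∀ f, (∀ u ∈ D, ⟪u, f⟫_ℂ = 0) → f = 0) (hD : ∀ u ∈ D, ∀ v ∈ D, rankOne ℂ u v ∈ K)
    {a : H →L[ℂ] H} (ha : IsCompactOperator a) : a ∈ K := by
  have h1 : ∀ u ∈ D, ∀ v, rankOne ℂ u v ∈ K := fun u hu v =>
    top_of (K.comap (rankOne ℂ u : H →L⋆[ℂ] H →L[ℂ] H).toLinearMap)
      (hK.preimage (rankOne ℂ u : H →L⋆[ℂ] H →L[ℂ] H).continuous) (hD u hu) h v
  have h2 : ∀ u v, rankOne ℂ u v ∈ K := fun u v =>
    top_of (K.comap ((rankOne ℂ : H →L[ℂ] H →L⋆[ℂ] H →L[ℂ] H).flip v).toLinearMap)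
      (hK.preimage ((rankOne ℂ : H →L[ℂ] H →L⋆[ℂ] H →L[ℂ] H).flip v).continuous)
      (fun u hu => h1 u hu v) h u
  rw [← SetLike.mem_coe, ← hK.closure_eq, Metric.mem_closure_iff]
  intro ε hε
  have hc := (ha.isCompact_closure_image_closedBall (f := a.toLinearMap) 1).totallyBounded
  obtain ⟨t, ht, hcov⟩ := Metric.totallyBounded_iff.mp hc (ε / 2) (half_pos hε)
  set F := Submodule.span ℂ t
  have : FiniteDimensional ℂ F := FiniteDimensional.span_of_finite ℂ ht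
  refine ⟨F.starProjection ∘L a, ?_, ?_⟩
  · rw [(stdOrthonormalBasis ℂ F).starProjection_eq_sum_rankOne, finsetSum_comp]
    exact Submodule.sum_mem _ fun i _ => by rw [rankOne_comp]; exact h2 _ _
  · rw [dist_eq_norm]
    refine lt_of_le_of_lt (opNorm_le_of_unit_norm (half_pos hε).le fun x hx => ?_) (half_lt_self hε)
    have := hcov (subset_closure ⟨x, by simp [hx], rfl⟩)
    simp only [mem_iUnion, Metric.mem_ball, dist_eq_norm] at this
    obtain ⟨y, hy, hxy⟩ := this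
    simp only [_root_.sub_apply, comp_apply]
    rw [Submodule.starProjection_minimal]
    exact (ciInf_le ⟨0, by rintro _ ⟨z, rfl⟩; exact norm_nonneg _⟩
      (⟨y, Submodule.subset_span hy⟩ : F)).trans hxy.le

omit [CompleteSpace H] in
lemma compact_rankOne (u v : H) : IsCompactOperator (rankOne ℂ u v) :=
  (isCompactOperator_of_locallyCompactSpace_dom (innerSL ℂ v)).clm_comp (toSpanSingleton ℂ u)

end

section
variable {X : Type} [MeasurableSpace X] [StandardBorelSpace X] {μ : Measure X} [SigmaFinite μ]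

noncomputable def δ (μ : Measure X) [SigmaFinite μ] (x : X) : Lp ℂ 2 μ :=
  indicatorConstLp 2 (measurableSet_singleton x) (measure_singleton_lt_top (μ := μ)).ne (1 : ℂ)

lemma inner_δ (x : X) (f : Lp ℂ 2 μ) : ⟪δ μ x, f⟫_ℂ = μ.real {x} • f x := by
  rw [δ, L2.inner_indicatorConstLp_one, integral_singleton]

lemma ne_zero_ind {S : Set X} (hS : MeasurableSet S) (h1 : μ S ≠ ∞) (h0 : μ S ≠ 0) :
    indicatorConstLp 2 hS h1 (1 : ℂ) ≠ 0 := by
  rw [← norm_ne_zero_iff, norm_indicatorConstLp (by norm_num) (by norm_num)]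
  have : 0 < μ.real S := ENNReal.toReal_pos h0 h1
  exact mul_ne_zero (by simp) (Real.rpow_pos_of_pos this _).ne'

lemma Ex_δ (x : X) {y : X} (hy : μ {y} ≠ 0) : Ex (rankOne ℂ (δ μ x) (δ μ y)) := by
  refine ⟨μ {x} / μ {y}, ENNReal.div_ne_top measure_singleton_lt_top.ne hy, fun ξ => ?_⟩
  by_cases h : ξ y = 0
  · have : rankOne ℂ (δ μ x) (δ μ y) ξ = 0 := by rw [rankOne_apply, inner_δ, h]; simp
    rw [this]
    exact le_trans (le_of_eq (ae_iff.mp (Lp.coeFn_zero ℂ 2 μ))) zero_le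
  · calc _ ≤ μ {x} := by
          refine measure_mono_ae ?_
          filter_upwards [Lp.coeFn_smul ⟪δ μ y, ξ⟫_ℂ (δ μ x), indicatorConstLp_coeFn (p := 2)
            (hs := measurableSet_singleton x) (hμs := (measure_singleton_lt_top (μ := μ)).ne)
            (c := (1 : ℂ))] with z h1 h2 (h3 : (⟪δ μ y, ξ⟫_ℂ • δ μ x) z ≠ 0)
          by_contra h4
          rw [h1, Pi.smul_apply, δ, δ, h2, indicator_of_notMem (show z ∉ ({x} : Set X) from h4),
            smul_zero] at h3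
          exact h3 rfl
      _ = μ {x} / μ {y} * μ {y} := (ENNReal.div_mul_cancel hy measure_singleton_lt_top.ne).symm
      _ ≤ _ := by gcongr; exact singleton_subset_iff.mpr h

lemma δ_mem {x y : X} (hx : μ {x} ≠ 0) (hy : μ {y} ≠ 0) : rankOne ℂ (δ μ x) (δ μ y) ∈ G μ :=
  ⟨Ex_δ x hy, by rw [adjoint_rankOne]; exact Ex_δ y hx⟩

lemma atomless (hn : ∀ x, μ {x} = 0) {a : Lp ℂ 2 μ →L[ℂ] Lp ℂ 2 μ} (ha : IsCompactOperator a) :
    a ∈ Roe μ := by
  rw [roe_eq]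
  refine all_compact _ (Submodule.isClosed_topologicalClosure _)
    (D := {u | ∃ (S : Set X) (hS : MeasurableSet S) (h : μ S ≠ ∞),
      u = indicatorConstLp 2 hS h (1 : ℂ)}) (fun f hf => ?_) ?_ ha
  · rw [Lp.eq_zero_iff_ae_eq_zero]
    refine Lp.ae_eq_zero_of_forall_setIntegral_eq_zero f (by norm_num) (by norm_num)
      (fun s _ h => integrableOn_Lp_of_measure_ne_top f (by norm_num) h.ne) fun s hs h => ?_
    rw [← L2.inner_indicatorConstLp_one hs h.ne]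
    exact hf _ ⟨s, hs, h.ne, rfl⟩
  · rintro _ ⟨S, hS, h1, rfl⟩ _ ⟨T, hT, h2, rfl⟩
    exact ind_mem hn hS h1 hT h2

lemma atomic (hn : μ {x | μ {x} = 0} = 0) {a : Lp ℂ 2 μ →L[ℂ] Lp ℂ 2 μ}
    (ha : IsCompactOperator a) : a ∈ Roe μ := by
  rw [roe_eq]
  refine all_compact _ (Submodule.isClosed_topologicalClosure _)
    (D := {u | ∃ x, μ {x} ≠ 0 ∧ u = δ μ x}) (fun f hf => ?_) ?_ ha
  · rw [Lp.eq_zero_iff_ae_eq_zero]
    refine measure_mono_null (fun x hx => ?_) hn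
    by_contra h
    have := hf _ ⟨x, h, rfl⟩
    rw [inner_δ, smul_eq_zero] at this
    rcases this with h' | h'
    · exact (ENNReal.toReal_pos h measure_singleton_lt_top.ne).ne' h'
    · exact hx h'
  · rintro _ ⟨x, hx, rfl⟩ _ ⟨y, hy, rfl⟩
    exact Submodule.le_topologicalClosure _ (δ_mem hx hy)

lemma mixed {x₀ : X} (hx : μ {x₀} ≠ 0) (hn : μ {x | μ {x} = 0} ≠ 0) :
    ∃ a : Lp ℂ 2 μ →L[ℂ] Lp ℂ 2 μ, IsCompactOperator a ∧ a ∉ Roe μ := by
  have hcount : {x | μ {x} ≠ 0}.Countable := by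
    simpa [pos_iff_ne_zero] using Measure.countable_meas_pos_of_disjoint_iUnion (μ := μ)
      (As := fun x : X => {x}) measurableSet_singleton (fun _ _ h => disjoint_singleton.mpr h)
  have hms : MeasurableSet {x | μ {x} = 0} := by
    convert hcount.measurableSet.compl using 1
    ext x; simp
  obtain ⟨S, hS, hSs, h0, h1⟩ := Measure.exists_subset_measure_lt_top hms (pos_iff_ne_zero.mpr hn)
  have := inst_cond h0.ne' h1.ne
  have := inst_null (μ := μ) (S := S) (fun x hx => hSs hx) (μ S)⁻¹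
  obtain ⟨-, ψ, -, hψ, -⟩ := MeasIso.iso_unit ((μ S)⁻¹ • μ.restrict S)
  have hJ : ∀ J, MeasurableSet J → μ (ψ ⁻¹' J ∩ S) = μ S * volume (J ∩ Ioo 0 1) := by
    intro J hJ
    rw [← Measure.restrict_apply hJ, ← hψ.measure_preimage hJ.nullMeasurableSet,
      Measure.smul_apply, smul_eq_mul, ← mul_assoc, ENNReal.mul_inv_cancel h0.ne' h1.ne, one_mul,
      Measure.restrict_apply' hS]
  have hm : ∀ t, MeasurableSet (ψ ⁻¹' Iic t ∩ S) := fun t =>
    (hψ.measurable measurableSet_Iic).inter hS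
  have hf : ∀ t, μ (ψ ⁻¹' Iic t ∩ S) ≠ ∞ := fun t =>
    ((measure_mono inter_subset_right).trans_lt h1).ne
  set I : ℝ → Lp ℂ 2 μ := fun t => indicatorConstLp 2 (hm t) (hf t) (1 : ℂ) with hI
  have hIc : ∀ t, I t =ᵐ[μ] (ψ ⁻¹' Iic t ∩ S).indicator fun _ => 1 := fun t =>
    indicatorConstLp_coeFn
  have hI1 : I 1 ≠ 0 := ne_zero_ind _ _ (by
    rw [hJ _ measurableSet_Iic, inter_eq_right.mpr (fun u hu => hu.2.le)]
    simpa using h0.ne')
  have hδ : δ μ x₀ ≠ 0 := ne_zero_ind _ _ hx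
  refine ⟨rankOne ℂ (δ μ x₀) (I 1), compact_rankOne _ _, fun hmem => ?_⟩
  rw [roe_eq, Submodule.topologicalClosure_coe] at hmem
  have hcl : IsClosed {a : Lp ℂ 2 μ →L[ℂ] Lp ℂ 2 μ | ⟪δ μ x₀, a (I 1)⟫_ℂ = 0} :=
    isClosed_eq (by fun_prop) continuous_const
  have key : (G μ : Set _) ⊆ {a : Lp ℂ 2 μ →L[ℂ] Lp ℂ 2 μ | ⟪δ μ x₀, a (I 1)⟫_ℂ = 0} := by
    rintro a ⟨⟨l, hl, h⟩, -⟩
    have small : ∀ ξ : Lp ℂ 2 μ, l * μ {x | ξ x ≠ 0} < μ {x₀} → ⟪δ μ x₀, a ξ⟫_ℂ = 0 := by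
      intro ξ hξ
      rw [inner_δ]
      by_contra h2
      have : a ξ x₀ ≠ 0 := fun h3 => h2 (by rw [h3, smul_zero])
      exact absurd ((measure_mono (singleton_subset_iff.mpr this)).trans (h ξ)) (not_le.mpr hξ)
    obtain ⟨N, hN0, hN⟩ := ENNReal.exists_nat_pos_mul_gt hx (ENNReal.mul_ne_top hl h1.ne)
    have hNr : (0 : ℝ) < N := by exact_mod_cast hN0
    have hk : ∀ k : ℕ, ⟪δ μ x₀, a (I (k / N))⟫_ℂ = 0 := by
      intro k
      induction k with
      | zero =>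
        refine small _ ?_
        have : μ {x | I (((0 : ℕ) : ℝ) / N) x ≠ 0} = 0 := by
          refine le_antisymm (le_trans (measure_mono_ae (t := ψ ⁻¹' Iic 0 ∩ S) ?_) ?_) zero_le
          · filter_upwards [hIc (((0 : ℕ) : ℝ) / N)] with x h1 (h2 : I _ x ≠ 0)
            rw [h1] at h2
            exact (by simpa using mem_of_indicator_ne_zero h2 : ψ x ≤ 0 ∧ x ∈ S)
          · rw [hJ _ measurableSet_Iic, show Iic (0 : ℝ) ∩ Ioo 0 1 = ∅ from
              eq_empty_of_forall_notMem fun u hu => not_lt.mpr hu.1 hu.2.1]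
            simp
        rw [this, mul_zero]
        exact pos_iff_ne_zero.mpr hx
      | succ k ih =>
        have h3 := small (I (((k + 1 : ℕ) : ℝ) / N) - I (k / N)) ?_
        · rwa [map_sub, inner_sub_right, ih, sub_zero] at h3
        have h4 : μ {x | (I (((k + 1 : ℕ) : ℝ) / N) - I (k / N)) x ≠ 0} ≤ μ S * (N : ℝ≥0∞)⁻¹ := by
          refine le_trans (measure_mono_ae
            (t := ψ ⁻¹' Ioc ((k : ℝ) / N) (((k + 1 : ℕ) : ℝ) / N) ∩ S) ?_) ?_
          · filter_upwards [hIc (((k + 1 : ℕ) : ℝ) / N), hIc (k / N),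
              Lp.coeFn_sub (I (((k + 1 : ℕ) : ℝ) / N)) (I (k / N))] with x h1 h2 h3
              (h4 : (I _ - I _) x ≠ 0)
            rw [h3, Pi.sub_apply, h1, h2] at h4
            have hle : (k : ℝ) / N ≤ ((k + 1 : ℕ) : ℝ) / N := by gcongr; simp
            by_cases b1 : x ∈ ψ ⁻¹' Iic ((k : ℝ) / N) ∩ S
            · rw [indicator_of_mem b1, indicator_of_mem (show x ∈ ψ ⁻¹' Iic _ ∩ S from
                ⟨le_trans b1.1 hle, b1.2⟩), sub_self] at h4
              exact absurd rfl h4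
            · rw [indicator_of_notMem b1, sub_zero] at h4
              have b2 := mem_of_indicator_ne_zero h4
              exact ⟨⟨not_le.mp fun b3 => b1 ⟨b3, b2.2⟩, b2.1⟩, b2.2⟩
          · rw [hJ _ measurableSet_Ioc]
            gcongr
            refine (measure_mono inter_subset_left).trans (le_of_eq ?_)
            rw [Real.volume_Ioc, show ((k + 1 : ℕ) : ℝ) / N - k / N = (N : ℝ)⁻¹ by
              push_cast; field_simp; ring, ENNReal.ofReal_inv_of_pos hNr, ENNReal.ofReal_natCast]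
        refine lt_of_le_of_lt (by gcongr : _ ≤ l * (μ S * (N : ℝ≥0∞)⁻¹)) ?_
        rw [← mul_assoc, ← div_eq_mul_inv,
          ENNReal.div_lt_iff (Or.inl (by exact_mod_cast hN0.ne')) (Or.inl (by simp)), mul_comm (μ {x₀})]
        exact hN
    have := hk N
    rwa [div_self hNr.ne'] at this
  have := hcl.closure_subset_iff.mpr key hmem
  simp [hδ, hI1, inner_smul_right] at this

end

theorem result (X : Type) [MeasurableSpace X] [StandardBorelSpace X] (μ : Measure X)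
    [SigmaFinite μ] : Q2 μ ↔ ((∀ x, μ {x} = 0) ∨ μ {x | μ {x} = 0} = 0) := by
  refine ⟨fun h => ?_, fun h a ha => ?_⟩
  · by_contra h'
    push Not at h'
    obtain ⟨⟨x, hx⟩, h2⟩ := h'
    obtain ⟨a, ha, ha'⟩ := mixed hx h2
    exact ha' (h a ha)
  · exact h.elim (fun h => atomless h ha) (fun h => atomic h ha)

end Pool.Agent.Results.MP_fe632d_an.QTwo
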